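import Mathlib

/-!
# Ordinal combinatorics: many disjoint stationary sets of ordinals of cofinality `ω`
-/

namespace MP21de40

open Set Cardinal Ordinal Order

universe u

/-- Ladders of ordinals of countable cofinality. -/
theorem exists_ladder {γ : Ordinal.{u}} (hγ : γ.cof = ℵ₀) :
    ∃ c : ℕ → Ordinal.{u}, StrictMono c ∧ (∀ n, c n < γ) ∧ ∀ η < γ, ∃ n, η ≤ c n := by
  have ha : γ.cof.ord = ω := by rw [hγ, ord_aleph0]
  obtain ⟨f, hf⟩ := exists_isFundamentalSeq ha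
  refine ⟨fun n => (f ⟨n, natCast_lt_omega0 n⟩).1, ?_, fun n => (f _).2, ?_⟩
  · intro m n hmn
    exact hf.strictMono (Subtype.mk_lt_mk.2 (Nat.cast_lt.2 hmn))
  · intro η hη
    obtain ⟨_, ⟨⟨d, hd⟩, rfl⟩, h⟩ := hf.isCofinal_range ⟨η, hη⟩
    obtain ⟨n, rfl⟩ := lt_omega0.1 hd
    exact ⟨n, h⟩

/-- Small cofinal sets. -/
theorem exists_cofinal {γ : Ordinal.{u}} (hγ : IsSuccLimit γ) :
    ∃ D : Set Ordinal.{u}, (∀ d ∈ D, d < γ) ∧ (∀ η < γ, ∃ d ∈ D, η < d) ∧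
      #D ≤ Cardinal.lift.{u + 1} γ.cof := by
  obtain ⟨f, hf⟩ := exists_isFundamentalSeq (o := γ) rfl
  refine ⟨range fun i => (f i).1, ?_, ?_, ?_⟩
  · rintro _ ⟨i, rfl⟩; exact (f i).2
  · intro η hη
    obtain ⟨_, ⟨i, rfl⟩, h⟩ := hf.isCofinal_range ⟨η + 1, hγ.add_one_lt hη⟩
    refine ⟨_, ⟨i, rfl⟩, ?_⟩
    have : η + 1 ≤ (f i).1 := h
    exact (lt_add_one η).trans_le this
  · refine mk_range_le.trans ?_
    rw [Cardinal.mk_Iio_ordinal, card_ord]

/-- `T` meets the set of closure points of every function from finite sequences to ordinals. -/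
def Stat (κ : Cardinal.{u}) (T : Set Ordinal.{u}) : Prop :=
  ∀ F : List Ordinal.{u} → Ordinal.{u}, (∀ l, (∀ a ∈ l, a < κ.ord) → F l < κ.ord) →
    ∃ γ ∈ T, γ < κ.ord ∧ ∀ l, (∀ a ∈ l, a < γ) → F l < γ

theorem lift_cof_ord {κ : Cardinal.{u}} (hκ : κ.IsRegular) :
    (Ordinal.lift.{u + 1} κ.ord).cof = Cardinal.lift.{u + 1} κ := by
  rw [← lift_cof, hκ.cof_ord]

theorem exists_step {κ : Cardinal.{u}} (hκ : κ.IsRegular) (hω : ℵ₀ < κ)
    (G : List Ordinal.{u} → Ordinal.{u}) (hG : ∀ l, (∀ a ∈ l, a < κ.ord) → G l < κ.ord)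
    (γ : Ordinal.{u}) (hγ : γ < κ.ord) :
    ∃ γ', γ < γ' ∧ γ' < κ.ord ∧ ∀ l, (∀ a ∈ l, a < γ) → G l < γ' := by
  let s : Set Ordinal.{u} := range fun l : List (Iio γ) => G (l.map Subtype.val)
  have hs : ∀ i ∈ s, i < κ.ord := by
    rintro _ ⟨l, rfl⟩
    refine hG _ fun a ha => ?_
    obtain ⟨b, -, rfl⟩ := List.mem_map.1 ha
    exact b.2.trans hγ
  have hcard : #s < (Ordinal.lift.{u + 1} κ.ord).cof := by
    rw [lift_cof_ord hκ]
    refine mk_range_le.trans_lt ((mk_list_le_max _).trans_lt (max_lt ?_ ?_))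
    · simpa using hω
    · rw [Cardinal.mk_Iio_ordinal, Cardinal.lift_lt]
      exact lt_ord.1 hγ
  have hsup := sSup_add_one_lt_of_lt_cof hcard hs
  refine ⟨max (γ + 1) (sSup ((· + 1) '' s)), ?_, max_lt ?_ hsup, ?_⟩
  · exact (lt_add_one γ).trans_le (le_max_left _ _)
  · exact (isSuccLimit_ord hκ.aleph0_le).add_one_lt hγ
  · intro l hl
    have hmem : G l ∈ s := by
      refine ⟨l.attach.map fun a => ⟨a.1, hl a.1 a.2⟩, ?_⟩
      simp [Function.comp_def]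
    have hb : BddAbove ((· + 1) '' s) := by
      refine ⟨κ.ord, ?_⟩
      rintro _ ⟨i, hi, rfl⟩
      exact ((isSuccLimit_ord hκ.aleph0_le).add_one_lt (hs i hi)).le
    exact (lt_add_one _).trans_le ((le_csSup hb ⟨_, hmem, rfl⟩).trans (le_max_right _ _))

/-- There are closure points of cofinality `ω` above every ordinal. -/
theorem exists_closed {κ : Cardinal.{u}} (hκ : κ.IsRegular) (hω : ℵ₀ < κ)
    (G : List Ordinal.{u} → Ordinal.{u}) (hG : ∀ l, (∀ a ∈ l, a < κ.ord) → G l < κ.ord)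
    (β : Ordinal.{u}) (hβ : β < κ.ord) :
    ∃ γ, β < γ ∧ γ < κ.ord ∧ γ.cof = ℵ₀ ∧ ∀ l, (∀ a ∈ l, a < γ) → G l < γ := by
  choose! N hN1 hN2 hN3 using exists_step hκ hω G hG
  let c : ℕ → Ordinal.{u} := fun n => N^[n] β
  have hcs : ∀ n, c (n + 1) = N (c n) := fun n => Function.iterate_succ_apply' N n β
  have hc : ∀ n, c n < κ.ord := by
    intro n
    induction n with
    | zero => exact hβ
    | succ n ih => rw [hcs]; exact hN2 _ ih
  have hmono : StrictMono c := strictMono_nat_of_lt_succ fun n => by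
    rw [hcs]; exact hN1 _ (hc n)
  have hle : ∀ n, c n ≤ ⨆ n, c n := fun n => Ordinal.le_iSup c n
  have hlt : ∀ n, c n < ⨆ n, c n := fun n => (hmono (Nat.lt_succ_self n)).trans_le (hle (n + 1))
  refine ⟨⨆ n, c n, hlt 0, ?_, ?_, ?_⟩
  · refine Ordinal.lift_iSup_lt_of_lt_cof ?_ hc
    simpa [hκ.cof_ord] using hω
  · have := Ordinal.lift_cof_iSup hmono
    simpa using this
  · intro l hl
    have : ∃ n, ∀ a ∈ l, a < c n := by
      clear hN3
      induction l with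
      | nil => exact ⟨0, by simp⟩
      | cons a l ih =>
        obtain ⟨n, hn⟩ := ih fun b hb => hl b (List.mem_cons_of_mem _ hb)
        obtain ⟨m, hm⟩ := Ordinal.lt_iSup_iff.1 (hl a List.mem_cons_self)
        refine ⟨max m n, fun b hb => ?_⟩
        rcases List.mem_cons.1 hb with rfl | hb
        · exact hm.trans_le (hmono.monotone (le_max_left _ _))
        · exact (hn b hb).trans_le (hmono.monotone (le_max_right _ _))
    obtain ⟨n, hn⟩ := this
    have h := hN3 (c n) (hc n) l hn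
    rw [← hcs] at h
    exact h.trans_le (hle _)

/-- For some `n`, unboundedly many of the sets `{γ : cf γ = ω, c γ n = η}` are stationary. -/
theorem exists_stat {κ : Cardinal.{u}} (hκ : κ.IsRegular) (hω : ℵ₀ < κ)
    (c : Ordinal.{u} → ℕ → Ordinal.{u})
    (hc : ∀ γ, γ.cof = ℵ₀ → (∀ n, c γ n < γ) ∧ ∀ η < γ, ∃ n, η ≤ c γ n) :
    ∃ n, ∀ β < κ.ord, ∃ η, β ≤ η ∧ η < κ.ord ∧ Stat κ {γ | γ.cof = ℵ₀ ∧ c γ n = η} := by
  by_contra hcon
  push Not at hcon
  choose b hb hb' using hcon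
  have hF : ∀ n η, b n ≤ η → η < κ.ord → ∃ F : List Ordinal.{u} → Ordinal.{u},
      (∀ l, (∀ a ∈ l, a < κ.ord) → F l < κ.ord) ∧
      ∀ γ, γ.cof = ℵ₀ → c γ n = η → γ < κ.ord → ∃ l, (∀ a ∈ l, a < γ) ∧ γ ≤ F l := by
    intro n η h1 h2
    have := hb' n η h1 h2
    unfold Stat at this
    push Not at this
    obtain ⟨F, hF1, hF2⟩ := this
    exact ⟨F, hF1, fun γ h3 h4 h5 => hF2 γ ⟨h3, h4⟩ h5⟩
  choose F hF1 hF2 using hF
  classical
  let F' : ℕ → Ordinal.{u} → List Ordinal.{u} → Ordinal.{u} := fun n η l =>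
    if h : b n ≤ η ∧ η < κ.ord then F n η h.1 h.2 l else 0
  have hκ0 : (0 : Ordinal.{u}) < κ.ord := hκ.ord_pos
  have hF'1 : ∀ n η l, (∀ a ∈ l, a < κ.ord) → F' n η l < κ.ord := by
    intro n η l hl
    simp only [F']
    split_ifs with h
    · exact hF1 n η h.1 h.2 l hl
    · exact hκ0
  let β : Ordinal.{u} := ⨆ n, b n
  have hβ : β < κ.ord := Ordinal.lift_iSup_lt_of_lt_cof (by simpa [hκ.cof_ord] using hω) hb
  let G : List Ordinal.{u} → Ordinal.{u} := fun L => match L with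
    | [] => 0
    | η :: l => ⨆ n, F' n η l
  have hG : ∀ l, (∀ a ∈ l, a < κ.ord) → G l < κ.ord := by
    intro L hL
    match L with
    | [] => exact hκ0
    | η :: l =>
      exact Ordinal.lift_iSup_lt_of_lt_cof (by simpa [hκ.cof_ord] using hω) fun n =>
        hF'1 n η l fun a ha => hL a (List.mem_cons_of_mem _ ha)
  obtain ⟨γ, hγ1, hγ2, hγ3, hγ4⟩ := exists_closed hκ hω G hG β hβ
  obtain ⟨n, hn⟩ := (hc γ hγ3).2 β hγ1
  have hnγ : c γ n < γ := (hc γ hγ3).1 n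
  have h1 : b n ≤ c γ n := (Ordinal.le_iSup b n).trans hn
  have h2 : c γ n < κ.ord := hnγ.trans hγ2
  obtain ⟨l, hl1, hl2⟩ := hF2 n (c γ n) h1 h2 γ hγ3 rfl hγ2
  have h3 : G (c γ n :: l) < γ := by
    refine hγ4 (c γ n :: l) fun a ha => ?_
    rcases List.mem_cons.1 ha with rfl | ha
    · exact hnγ
    · exact hl1 a ha
  have h4 : F n (c γ n) h1 h2 l ≤ G (c γ n :: l) := by
    have : F' n (c γ n) l = F n (c γ n) h1 h2 l := by
      simp only [F', dif_pos (And.intro h1 h2)]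
    rw [← this]
    exact Ordinal.le_iSup (fun m => F' m (c γ n) l) n
  exact absurd (h4.trans_lt h3) (not_lt.2 hl2)

end MP21de40
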