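import Mathlib

/-!
# Definitions for MP_21de40_lc

The cut-and-choose game `𝒰(κ, ≤ω)`, club and stationary subsets of an ordinal, Mahlo cardinals.
-/

namespace MP21de40

open Set Cardinal Ordinal Order

universe u v

/-- Choose has a winning strategy in the cut-and-choose game `𝒰(S, ≤ω)` started from the set `S`.

In round `n` Cut splits the current set `X n` into two disjoint pieces `P n`, `Q n` with union
`X n`, and the strategy `σ` of Choose, applied to the list `[(P 0, Q 0), …, (P n, Q n)]` of all
moves of Cut so far, selects `P n` (answer `true`) or `Q n` (answer `false`); the selected piece is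
`X (n + 1)`. The strategy is winning if in every play consistent with it Choose never selects a
singleton and `⋂ n, X n` is nonempty. -/
def ChooseWinsSet {α : Type v} (S : Set α) : Prop :=
  ∃ σ : List (Set α × Set α) → Bool, ∀ X P Q : ℕ → Set α, X 0 = S →
    (∀ n, P n ∪ Q n = X n ∧ Disjoint (P n) (Q n)) →
    (∀ n, X (n + 1) = if σ (List.ofFn fun i : Fin (n + 1) => (P i, Q i)) = true
      then P n else Q n) →
    (∀ n x, X (n + 1) ≠ {x}) ∧ (⋂ n, X n).Nonempty

/-- Choose wins `𝒰(κ, ≤ω)`; the cardinal `κ` is identified with the set of all ordinals below the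
initial ordinal `κ.ord`. -/
def ChooseWins (κ : Cardinal.{u}) : Prop := ChooseWinsSet (Iio κ.ord)

/-- `C` is a club (closed unbounded) subset of the ordinal `o`. -/
structure IsClubIn (C : Set Ordinal.{u}) (o : Ordinal.{u}) : Prop where
  subset : ∀ c ∈ C, c < o
  unbounded : ∀ β < o, ∃ c ∈ C, β < c
  closed : ∀ γ < o, γ ≠ 0 → (∀ β < γ, ∃ c ∈ C, β < c ∧ c < γ) → γ ∈ C

/-- `Z` is stationary in the ordinal `o`: it meets every club subset of `o`. -/
def IsStationaryIn (Z : Set Ordinal.{u}) (o : Ordinal.{u}) : Prop :=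
  ∀ C, IsClubIn C o → ∃ γ ∈ Z, γ ∈ C

/-- `κ` is weakly Mahlo: it is regular and uncountable, and every club subset of `κ` contains an
uncountable regular cardinal below `κ`. -/
structure IsWeaklyMahlo (κ : Cardinal.{u}) : Prop where
  isRegular : κ.IsRegular
  aleph0_lt : ℵ₀ < κ
  club : ∀ C : Set Ordinal.{u}, IsClubIn C κ.ord →
    ∃ μ : Cardinal.{u}, μ < κ ∧ ℵ₀ < μ ∧ μ.IsRegular ∧ μ.ord ∈ C

/-- `κ` is Mahlo: it is inaccessible, and every club subset of `κ` contains an inaccessible
cardinal below `κ`. -/
structure IsMahlo (κ : Cardinal.{u}) : Prop where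
  isInaccessible : κ.IsInaccessible
  club : ∀ C : Set Ordinal.{u}, IsClubIn C κ.ord →
    ∃ μ : Cardinal.{u}, μ < κ ∧ μ.IsInaccessible ∧ μ.ord ∈ C

end MP21de40
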