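import Pool.Agent.MP_21de40_lc.Main

/-!
# Consequences: Mahlo cardinals
-/

namespace MP21de40

open Set Cardinal Ordinal Order

universe u

variable {κ : Cardinal.{u}}

/-- The set of ordinals of cofinality `ω` is stationary in every regular uncountable cardinal. -/
theorem stationary_cof_omega (hκ : κ.IsRegular) (hω : ℵ₀ < κ) :
    IsStationaryIn {γ : Ordinal.{u} | γ.cof = ℵ₀} κ.ord := by
  intro C hC
  choose! N hN1 hN2 using hC.unbounded
  let F : List Ordinal.{u} → Ordinal.{u} := fun l => match l with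
    | [] => 0
    | η :: _ => N η
  obtain ⟨γ, h1, h2, h3, h4⟩ := exists_closed hκ hω F (by
    intro l hl
    match l with
    | [] => exact hκ.ord_pos
    | η :: l => exact hC.subset _ (hN1 η (hl η List.mem_cons_self))) 0 hκ.ord_pos
  refine ⟨γ, h3, hC.closed γ h2 h1.ne' fun β hβ => ?_⟩
  refine ⟨N β, hN1 β (hβ.trans h2), hN2 β (hβ.trans h2), ?_⟩
  have := h4 [β] (by simpa using hβ)
  exact this

/-- If Choose wins somewhere below `κ`, he wins at a regular uncountable cardinal below `κ`. -/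
theorem exists_regular {μ : Cardinal.{u}} (hμ : μ < κ) (h : ChooseWins μ) :
    ∃ ν < κ, ℵ₀ < ν ∧ ν.IsRegular ∧ ChooseWins ν := by
  have hwf : WellFounded (fun a b : Cardinal.{u} => a < b) := Cardinal.lt_wf
  obtain ⟨ν, hν, hmin⟩ := hwf.has_min {ν : Cardinal.{u} | ChooseWins ν} ⟨μ, h⟩
  have hmin' : ∀ ρ < ν, ¬ ChooseWins ρ := fun ρ hρ hw => hmin ρ hw hρ
  have hνμ : ν ≤ μ := not_lt.1 fun h' => hmin μ h h'
  exact ⟨ν, hνμ.trans_lt hμ, hν.aleph0_lt, isRegular_of_least hν hmin', hν⟩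

theorem least_of_regular (h : ∀ μ < κ, ℵ₀ < μ → μ.IsRegular → ¬ ChooseWins μ) :
    ∀ μ < κ, ¬ ChooseWins μ := by
  intro μ hμ hw
  obtain ⟨ν, h1, h2, h3, h4⟩ := exists_regular hμ hw
  exact h ν h1 h2 h3 h4

theorem ne_succ_of_isInaccessible (h : κ.IsInaccessible) (δ : Cardinal.{u}) : κ ≠ succ δ := by
  rintro rfl
  have h1 : δ < succ δ := lt_succ δ
  exact absurd (lt_succ_iff.1 (h.isStrongPrelimit h1)) (not_le.2 (cantor δ))

/-- The ordinals `a` produced by `core` are inaccessible cardinals if `κ` is inaccessible. -/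
theorem core_inaccessible (hκ : κ.IsInaccessible) (hwin : ChooseWins κ)
    (hmin : ∀ μ < κ, ¬ ChooseWins μ) {C : Set Ordinal.{u}} (hC : IsClubIn C κ.ord)
    {Z : Ordinal.{u} → Set Ordinal.{u}}
    (hZ : ∀ i < κ.ord, IsStationaryIn (Z i) κ.ord ∧ ∀ γ ∈ Z i, γ.cof = ℵ₀) :
    ∃ μ : Cardinal.{u}, μ < κ ∧ μ.IsInaccessible ∧ μ.ord ∈ C ∧
      ∀ i < μ.ord, IsStationaryIn (Z i) μ.ord := by
  obtain ⟨a, haC, h1, h2, h3, h4, h5, h6, h7⟩ := core hwin hmin hC hZ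
  have h6' : a.cof.ord = a := h6.resolve_right (ne_succ_of_isInaccessible hκ _)
  refine ⟨a.cof, ?_, ⟨?_, ?_, ?_⟩, ?_, ?_⟩
  · rw [← ord_lt_ord, h6']; exact h2
  · rw [← ord_lt_ord, h6', ord_aleph0]; exact h1
  · rw [h6']
  · intro x hx
    have hxa : x.ord < a := by rw [← h6']; exact ord_lt_ord.2 hx
    have := h7 hκ.isStrongLimit x.ord hxa
    rw [card_ord] at this
    rw [← ord_lt_ord, h6']
    exact this
  · rw [h6']; exact haC
  · rw [h6']; exact h5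

theorem isMahlo_of_least (hκ : κ.IsInaccessible) (hwin : ChooseWins κ)
    (hmin : ∀ μ < κ, ¬ ChooseWins μ) : IsMahlo κ := by
  refine ⟨hκ, fun C hC => ?_⟩
  obtain ⟨μ, h1, h2, h3, -⟩ := core_inaccessible hκ hwin hmin hC
    (Z := fun _ => {γ | γ.cof = ℵ₀})
    fun _ _ => ⟨stationary_cof_omega hκ.isRegular hκ.aleph0_lt, fun _ h => h⟩
  exact ⟨μ, h1, h2, h3⟩

theorem structure_of_least (hwin : ChooseWins κ) (hmin : ∀ μ < κ, ¬ ChooseWins μ) :
    (∃ δ : Cardinal.{u}, ℵ₀ < δ ∧ δ.IsRegular ∧ κ = succ δ) ∨ IsWeaklyMahlo κ := by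
  have hω := hwin.aleph0_lt
  have hκ := isRegular_of_least hwin hmin
  by_cases hs : ∃ δ : Cardinal.{u}, ℵ₀ < δ ∧ δ.IsRegular ∧ κ = succ δ
  · exact Or.inl hs
  · refine Or.inr ⟨hκ, hω, fun C hC => ?_⟩
    obtain ⟨a, haC, h1, h2, h3, h4, -, h6, -⟩ := core hwin hmin hC
      (Z := fun _ => {γ | γ.cof = ℵ₀})
      fun _ _ => ⟨stationary_cof_omega hκ hω, fun _ h => h⟩
    have hreg := isRegular_cof h3
    have hlt : ℵ₀ < a.cof := lt_of_le_of_ne hreg.aleph0_le h4.symm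
    rcases h6 with h6 | h6
    · refine ⟨a.cof, ?_, hlt, hreg, ?_⟩
      · rw [← ord_lt_ord, h6]; exact h2
      · rw [h6]; exact haC
    · exact absurd ⟨a.cof, hlt, hreg, h6⟩ hs

/-- A Mahlo cardinal is not the least inaccessible cardinal. -/
theorem IsMahlo.exists_lt (h : IsMahlo κ) : ∃ μ < κ, μ.IsInaccessible := by
  have hlim := isSuccLimit_ord h.isInaccessible.aleph0_lt.le
  obtain ⟨μ, h1, h2, -⟩ := h.club (Iio κ.ord)
    ⟨fun c hc => hc, fun β hβ => ⟨β + 1, hlim.add_one_lt hβ, lt_add_one β⟩,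
      fun γ hγ _ _ => hγ⟩
  exact ⟨μ, h1, h2⟩

theorem least_inaccessible_iff (hκ : κ.IsInaccessible) (hleast : ∀ μ < κ, ¬ μ.IsInaccessible) :
    ChooseWins κ ↔ ∃ μ < κ, ℵ₀ < μ ∧ μ.IsRegular ∧ ChooseWins μ := by
  constructor
  · intro hwin
    by_contra hcon
    push Not at hcon
    obtain ⟨μ, h1, h2⟩ := (isMahlo_of_least hκ hwin (least_of_regular hcon)).exists_lt
    exact hleast μ h1 h2
  · rintro ⟨μ, h1, -, -, h2⟩
    exact h2.mono h1.le

theorem isClubIn_Iio {o : Ordinal.{u}} (ho : IsSuccLimit o) : IsClubIn (Iio o) o :=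
  ⟨fun _ hc => hc, fun β hβ => ⟨β + 1, ho.add_one_lt hβ, lt_add_one β⟩, fun _ hγ _ _ => hγ⟩

theorem exists_reflection (hwin : ChooseWins κ) (hmin : ∀ μ < κ, ¬ ChooseWins μ)
    {Z : Ordinal.{u} → Set Ordinal.{u}}
    (hZ : ∀ i < κ.ord, IsStationaryIn (Z i) κ.ord ∧ ∀ γ ∈ Z i, γ.cof = ℵ₀) :
    ∃ a < κ.ord, IsSuccLimit a ∧ ℵ₀ < a.cof ∧ ∀ i < a, IsStationaryIn (Z i) a := by
  obtain ⟨a, -, -, h2, h3, h4, h5, -, -⟩ := core hwin hmin
    (isClubIn_Iio (isSuccLimit_ord hwin.aleph0_lt.le)) hZ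
  exact ⟨a, h2, h3, lt_of_le_of_ne (isRegular_cof h3).aleph0_le h4.symm, h5⟩

theorem exists_reflection_inaccessible (hκ : κ.IsInaccessible) (hwin : ChooseWins κ)
    (hmin : ∀ μ < κ, ¬ ChooseWins μ) {Z : Ordinal.{u} → Set Ordinal.{u}}
    (hZ : ∀ i < κ.ord, IsStationaryIn (Z i) κ.ord ∧ ∀ γ ∈ Z i, γ.cof = ℵ₀) :
    ∃ μ < κ, μ.IsInaccessible ∧ ∀ i < μ.ord, IsStationaryIn (Z i) μ.ord := by
  obtain ⟨μ, h1, h2, -, h3⟩ := core_inaccessible hκ hwin hmin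
    (isClubIn_Iio (isSuccLimit_ord hwin.aleph0_lt.le)) hZ
  exact ⟨μ, h1, h2, h3⟩

end MP21de40
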