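import Pool.Agent.MP_21de40_lc.Defs

/-!
# The cut-and-choose game `𝒰(S, ≤ω)`

A normal form of winning strategies of Choose, in which a position is the (reversed) list of the
sets with which Cut has cut so far.
-/

namespace MP21de40

open Set

universe u v w

/-! ### Normal form -/

variable {α : Type v} {β : Type w}

/-- The current set after the (reversed) list of cut sets. -/
def st (S : Set α) (τ : List (Set α) → Bool) : List (Set α) → Set α
  | [] => S
  | A :: l => if τ (A :: l) = true then st S τ l ∩ A else st S τ l \ A

/-- The position after `n` rounds when Cut plays the sets `A 0, A 1, …`. -/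
def hist (A : ℕ → Set α) : ℕ → List (Set α)
  | 0 => []
  | n + 1 => A n :: hist A n

/-- `τ` is winning for Choose, normal form. -/
def WinsA (S : Set α) (τ : List (Set α) → Bool) : Prop :=
  ∀ A : ℕ → Set α, (∀ n x, st S τ (hist A (n + 1)) ≠ {x}) ∧ (⋂ n, st S τ (hist A n)).Nonempty

/-- Simulation of the game by the normal form. -/
def sim (S : Set α) (σ : List (Set α × Set α) → Bool) :
    List (Set α) → Set α × List (Set α × Set α)
  | [] => (S, [])
  | A :: l =>
    (if σ ((sim S σ l).2 ++ [((sim S σ l).1 ∩ A, (sim S σ l).1 \ A)]) = true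
      then (sim S σ l).1 ∩ A else (sim S σ l).1 \ A,
      (sim S σ l).2 ++ [((sim S σ l).1 ∩ A, (sim S σ l).1 \ A)])

theorem exists_winsA {S : Set α} (h : ChooseWinsSet S) : ∃ τ, WinsA S τ := by
  obtain ⟨σ, hσ⟩ := h
  let τ : List (Set α) → Bool := fun L => σ (sim S σ L).2
  have hst : ∀ l, st S τ l = (sim S σ l).1 := by
    intro l
    induction l with
    | nil => rfl
    | cons A l ih =>
      simp only [st, sim, τ, ih]
  refine ⟨τ, fun A => ?_⟩
  have key := hσ (fun n => (sim S σ (hist A n)).1) (fun n => (sim S σ (hist A n)).1 ∩ A n)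
    (fun n => (sim S σ (hist A n)).1 \ A n) rfl
    (fun n => ⟨by simp, by
      rw [Set.disjoint_left]; intro x hx hx'; exact hx'.2 hx.2⟩) ?_
  · refine ⟨fun n x => ?_, ?_⟩
    · rw [hst]; exact key.1 n x
    · simp_rw [hst]; exact key.2
  · have hlist : ∀ n, (sim S σ (hist A n)).2 = List.ofFn (fun i : Fin n =>
        ((sim S σ (hist A i)).1 ∩ A i, (sim S σ (hist A i)).1 \ A i)) := by
      intro n
      induction n with
      | zero => simp [hist, sim]
      | succ n ih =>
        rw [List.ofFn_succ_last]
        simp only [hist, sim, ih, Fin.val_castSucc, Fin.val_last]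
    intro n
    rw [← hlist (n + 1)]
    simp only [hist, sim]

theorem chooseWinsSet_of_winsA {S : Set α} {τ : List (Set α) → Bool} (h : WinsA S τ) :
    ChooseWinsSet S := by
  refine ⟨fun L => τ ((L.map Prod.fst).reverse), fun X P Q hX0 hPQ hX => ?_⟩
  have hh : ∀ n, (((List.ofFn fun i : Fin n => (P i, Q i)).map Prod.fst).reverse) = hist P n := by
    intro n
    induction n with
    | zero => simp [hist]
    | succ n ih =>
      rw [List.ofFn_succ_last]
      simp only [List.map_append, List.map_cons, List.map_nil, List.reverse_append,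
        List.reverse_cons, List.reverse_nil, List.nil_append, List.singleton_append, hist,
        Fin.val_castSucc, Fin.val_last, ih]
  have hst : ∀ n, X n = st S τ (hist P n) := by
    intro n
    induction n with
    | zero => simpa [hist, st] using hX0
    | succ n ih =>
      have hXn := hX n
      simp only [hh (n + 1)] at hXn
      rw [hXn]
      have h1 : P n = X n ∩ P n := by
        rw [← (hPQ n).1]; simp
      have h2 : Q n = X n \ P n := by
        rw [← (hPQ n).1, Set.union_sdiff_left, (hPQ n).2.symm.sdiff_eq_left]
      simp only [hist, st, ← ih]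
      rw [← h1, ← h2]
      rfl
  have := h P
  refine ⟨fun n x => ?_, ?_⟩
  · rw [hst]; exact this.1 n x
  · simp_rw [hst]; exact this.2

variable {S : Set α} {τ : List (Set α) → Bool}

theorem st_anti {l l' : List (Set α)} (h : l <:+ l') : st S τ l' ⊆ st S τ l := by
  obtain ⟨t, rfl⟩ := h
  induction t with
  | nil => exact subset_rfl
  | cons A t ih =>
    refine subset_trans ?_ ih
    simp only [List.cons_append, st]
    split_ifs
    · exact inter_subset_left
    · exact sdiff_subset

theorem hist_reverse (A : ℕ → Set α) (n : ℕ) : (hist A n).reverse = (List.range n).map A := by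
  induction n with
  | zero => simp [hist]
  | succ n ih => simp [hist, ih, List.range_succ]

theorem length_hist (A : ℕ → Set α) (n : ℕ) : (hist A n).length = n := by
  induction n with
  | zero => rfl
  | succ n ih => simp [hist, ih]

theorem suffix_of_le {q : ℕ → List (Set α)} (hq : ∀ n, q n <:+ q (n + 1)) {m n : ℕ}
    (h : m ≤ n) : q m <:+ q n := by
  induction n, h using Nat.le_induction with
  | base => exact List.suffix_rfl
  | succ n _ ih => exact ih.trans (hq n)

theorem exists_hist {q : ℕ → List (Set α)} (hq : ∀ n, q n <:+ q (n + 1)) :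
    ∃ A : ℕ → Set α, ∀ n, hist A (q n).length = q n := by
  classical
  have hpre : ∀ m n k, k < (q m).length → k < (q n).length →
      (q m).reverse.getD k univ = (q n).reverse.getD k univ := by
    have aux : ∀ m n k, m ≤ n → k < (q m).length →
      (q m).reverse.getD k univ = (q n).reverse.getD k univ := by
      intro m n k hmn hk
      obtain ⟨t, ht⟩ := suffix_of_le hq hmn
      rw [← ht, List.reverse_append, List.getD_append]
      simpa using hk
    intro m n k hm hn
    rcases le_total m n with h | h
    · exact aux m n k h hm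
    · exact (aux n m k h hn).symm
  let A : ℕ → Set α := fun k =>
    if h : ∃ n, k < (q n).length then (q (Nat.find h)).reverse.getD k univ else univ
  have hA : ∀ n k, k < (q n).length → A k = (q n).reverse.getD k univ := by
    intro n k hk
    have h : ∃ n, k < (q n).length := ⟨n, hk⟩
    simp only [A, dif_pos h]
    exact hpre _ _ k (Nat.find_spec h) hk
  refine ⟨A, fun n => ?_⟩
  rw [← List.reverse_inj, hist_reverse]
  refine List.ext_getElem (by simp) fun k h1 h2 => ?_
  have hk : k < (q n).length := by simpa using h1
  simp only [List.getElem_map, List.getElem_range]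
  rw [hA n k hk, List.getD_eq_getElem _ _ (by simpa using hk)]

/-- Along an increasing sequence of positions the intersection is nonempty. -/
theorem WinsA.chain (h : WinsA S τ) {q : ℕ → List (Set α)} (hq : ∀ n, q n <:+ q (n + 1)) :
    ∃ x, ∀ n, x ∈ st S τ (q n) := by
  obtain ⟨A, hA⟩ := exists_hist hq
  obtain ⟨x, hx⟩ := (h A).2
  rw [mem_iInter] at hx
  exact ⟨x, fun n => by rw [← hA n]; exact hx _⟩

theorem WinsA.nonempty (h : WinsA S τ) (q : List (Set α)) : (st S τ q).Nonempty := by
  obtain ⟨x, hx⟩ := h.chain (q := fun _ => q) (fun _ => List.suffix_rfl)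
  exact ⟨x, hx 0⟩

theorem WinsA.ne_singleton (h : WinsA S τ) (q : List (Set α)) (x : α) : st S τ q ≠ {x} := by
  intro hq
  obtain ⟨A, hA⟩ := exists_hist (q := fun _ => univ :: q) (fun _ => List.suffix_rfl)
  have h1 := (h A).1 q.length x
  have h2 : hist A (q.length + 1) = univ :: q := hA 0
  rw [h2] at h1
  have h3 := h.nonempty (univ :: q)
  simp only [st] at h1 h3
  split_ifs at h1 h3
  · rw [inter_univ] at h1
    exact h1 hq
  · simp at h3

theorem WinsA.not_subset_singleton (h : WinsA S τ) (q : List (Set α)) (x : α) :
    ¬ st S τ q ⊆ {x} := by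
  intro hq
  exact h.ne_singleton q x (Set.Subset.antisymm hq (by
    obtain ⟨y, hy⟩ := h.nonempty q
    have : y = x := hq hy
    subst this
    simpa using hy))

/-- Either answer is possible, and exactly one of them is given. -/
theorem st_cons (A : Set α) (l : List (Set α)) :
    st S τ (A :: l) = st S τ l ∩ A ∨ st S τ (A :: l) = st S τ l \ A := by
  simp only [st]
  split_ifs
  · exact Or.inl rfl
  · exact Or.inr rfl

/-- If `g` is not constant on the set of any position extending `p`, then Choose wins the game on
any set containing the values of `g` on the set of the position `p`. -/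
theorem WinsA.push (h : WinsA S τ) (p : List (Set α)) (g : α → β) (T : Set β)
    (hT : ∀ x ∈ st S τ p, g x ∈ T)
    (hg : ∀ q, p <:+ q → ∀ b, ¬ ∀ x ∈ st S τ q, g x = b) : ChooseWinsSet T := by
  let τ' : List (Set β) → Bool := fun L => τ (L.map (fun B => g ⁻¹' B) ++ p)
  have hsub : ∀ L : List (Set β),
      ∀ x ∈ st S τ (L.map (fun B => g ⁻¹' B) ++ p), g x ∈ st T τ' L := by
    intro L
    induction L with
    | nil => simpa [st] using hT
    | cons B L ih =>
      intro x hx
      have hx0 : x ∈ st S τ (L.map (fun B => g ⁻¹' B) ++ p) :=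
        st_anti (by simp) hx
      have ih' := ih x hx0
      simp only [List.map_cons, List.cons_append, st] at hx ⊢
      by_cases hc : τ (g ⁻¹' B :: (List.map (fun B => g ⁻¹' B) L ++ p)) = true
      · have hc' : τ' (B :: L) = true := hc
        rw [if_pos hc] at hx
        rw [if_pos hc']
        exact ⟨ih', hx.2⟩
      · have hc' : ¬ τ' (B :: L) = true := hc
        rw [if_neg hc] at hx
        rw [if_neg hc']
        exact ⟨ih', hx.2⟩
  apply chooseWinsSet_of_winsA (τ := τ')
  intro B
  refine ⟨fun n b hb => ?_, ?_⟩
  · refine hg ((hist B (n + 1)).map (fun B => g ⁻¹' B) ++ p) (List.suffix_append _ _) b ?_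
    intro x hx
    have := hsub _ x hx
    rw [hb] at this
    exact this
  · obtain ⟨x, hx⟩ := h.chain (q := fun n => (hist B n).map (fun B => g ⁻¹' B) ++ p) (by
      intro n
      simp only [hist, List.map_cons, List.cons_append]
      exact List.suffix_cons _ _)
    exact ⟨g x, mem_iInter.2 fun n => hsub _ x (hx n)⟩

/-- Monotonicity: if Choose wins on `S` and `S` embeds into `T`, then Choose wins on `T`. -/
theorem ChooseWinsSet.map {S : Set α} {T : Set β} (h : ChooseWinsSet S) (g : α → β)
    (hmaps : MapsTo g S T) (hinj : InjOn g S) : ChooseWinsSet T := by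
  obtain ⟨τ, hτ⟩ := exists_winsA h
  refine hτ.push [] g T (fun x hx => hmaps hx) fun q _ b hb => ?_
  obtain ⟨x, hx⟩ := hτ.nonempty q
  refine hτ.not_subset_singleton q x fun y hy => ?_
  have hsub : st S τ q ⊆ S := st_anti (S := S) (τ := τ) (l := []) List.nil_suffix
  exact hinj (hsub hy) (hsub hx) ((hb y hy).trans (hb x hx).symm)

/-- Choose does not win on countable sets. -/
theorem not_chooseWinsSet_of_countable {S : Set α} (hS : S.Countable) : ¬ ChooseWinsSet S := by
  intro h
  obtain ⟨τ, hτ⟩ := exists_winsA h
  obtain ⟨x0, hx0⟩ : S.Nonempty := hτ.nonempty []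
  obtain ⟨s, hs⟩ := hS.exists_eq_range ⟨x0, hx0⟩
  let A : ℕ → Set α := fun n => {s n}
  obtain ⟨x, hx⟩ := (hτ A).2
  rw [mem_iInter] at hx
  have hxS : x ∈ S := hx 0
  rw [hs] at hxS
  obtain ⟨n, rfl⟩ := hxS
  have h1 := hx (n + 1)
  simp only [hist] at h1
  rcases st_cons (S := S) (τ := τ) (A n) (hist A n) with h2 | h2
  · exact hτ.not_subset_singleton (A n :: hist A n) (s n) (by rw [h2]; exact inter_subset_right)
  · rw [h2] at h1
    exact h1.2 rfl

end MP21de40
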