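import Pool.Agent.MP_21de40_lc.Game
import Pool.Agent.MP_21de40_lc.Comb

/-!
# The least cardinal at which Choose wins
-/

namespace MP21de40

open Set Cardinal Ordinal Order

universe u v w

theorem ChooseWins.mono {μ κ : Cardinal.{u}} (h : μ ≤ κ) (hμ : ChooseWins μ) : ChooseWins κ :=
  ChooseWinsSet.map hμ id (fun _ hx => lt_of_lt_of_le hx (ord_le_ord.2 h)) (injOn_id _)

theorem ChooseWins.aleph0_lt {κ : Cardinal.{u}} (h : ChooseWins κ) : ℵ₀ < κ := by
  by_contra hκ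
  refine not_chooseWinsSet_of_countable ?_ h
  rw [← le_aleph0_iff_set_countable, Cardinal.mk_Iio_ordinal, card_ord]
  simpa using not_lt.1 hκ

variable {κ : Cardinal.{u}} {α : Type v} {S : Set α} {τ : List (Set α) → Bool}

/-- Completeness: functions with fewer than `κ` values are constant on some extension. -/
theorem exists_const (hmin : ∀ μ < κ, ¬ ChooseWins μ) (h : WinsA S τ) (p : List (Set α))
    {β : Type (u + 1)} (g : α → β) (B : Set β) (hB : #B < Cardinal.lift.{u + 1} κ)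
    (hg : ∀ x ∈ st S τ p, g x ∈ B) :
    ∃ q, p <:+ q ∧ ∃ b, ∀ x ∈ st S τ q, g x = b := by
  by_contra hcon
  push Not at hcon
  have h1 : ChooseWinsSet B := h.push p g B hg fun q hq b hb => by
    obtain ⟨x, hx, hx'⟩ := hcon q hq b
    exact hx' (hb x hx)
  obtain ⟨μ, hμ⟩ := Cardinal.mem_range_lift_of_le hB.le
  have hμκ : μ < κ := by
    rw [← hμ, Cardinal.lift_lt] at hB
    exact hB
  have h2 : #B = #(Iio μ.ord) := by
    rw [Cardinal.mk_Iio_ordinal, card_ord, hμ]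
  obtain ⟨e⟩ := Cardinal.eq.1 h2
  classical
  let g' : β → Ordinal.{u} := fun b => if hb : b ∈ B then (e ⟨b, hb⟩).1 else 0
  refine hmin μ hμκ (ChooseWinsSet.map h1 g' ?_ ?_)
  · intro b hb
    simp only [g', dif_pos hb]
    exact (e ⟨b, hb⟩).2
  · intro b hb b' hb' hbb
    simp only [g', dif_pos hb, dif_pos hb'] at hbb
    have := e.injective (Subtype.ext hbb)
    exact congrArg Subtype.val this

/-- `f` is defined on the set of the position `p` and is not constant on any extension. -/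
structure Good (κ : Cardinal.{u}) (S : Set α) (τ : List (Set α) → Bool) (p : List (Set α))
    (f : α → Ordinal.{u}) : Prop where
  lt : ∀ x ∈ st S τ p, f x < κ.ord
  nc : ∀ q, p <:+ q → ∀ b, ¬ ∀ x ∈ st S τ q, f x = b

theorem Good.mono {p q : List (Set α)} {f : α → Ordinal.{u}} (h : Good κ S τ p f)
    (hpq : p <:+ q) : Good κ S τ q f :=
  ⟨fun x hx => h.lt x (st_anti hpq hx), fun r hr b => h.nc r (hpq.trans hr) b⟩

/-- The comparison of good pairs is well-founded. -/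
theorem wf_rel (h : WinsA S τ) : WellFounded
    (fun a b : List (Set α) × (α → Ordinal.{u}) =>
      b.1 <:+ a.1 ∧ ∀ x ∈ st S τ a.1, a.2 x < b.2 x) := by
  rw [wellFounded_iff_isEmpty_descending_chain]
  refine ⟨fun ⟨f, hf⟩ => ?_⟩
  obtain ⟨x, hx⟩ := h.chain (q := fun n => (f n).1) fun n => (hf n).1
  have : ∀ n, (f (n + 1)).2 x < (f n).2 x := fun n => (hf n).2 x (hx (n + 1))
  have hwf : WellFounded (fun a b : Ordinal.{u} => a < b) := Ordinal.lt_wf
  rw [wellFounded_iff_isEmpty_descending_chain] at hwf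
  exact hwf.false ⟨fun n => (f n).2 x, this⟩

/-- Minimal good pairs below any good pair. -/
theorem exists_min (h : WinsA S τ) {p₀ : List (Set α)} {f₀ : α → Ordinal.{u}}
    (h₀ : Good κ S τ p₀ f₀) : ∃ p f, Good κ S τ p f ∧
      ∀ q, p <:+ q → ∀ g : α → Ordinal.{u}, (∀ x ∈ st S τ q, g x < f x) →
        ∃ q', q <:+ q' ∧ ∃ b, ∀ x ∈ st S τ q', g x = b := by
  obtain ⟨⟨p, f⟩, hpf, hmin⟩ := (wf_rel h).has_min
    {a : List (Set α) × (α → Ordinal.{u}) | Good κ S τ a.1 a.2} ⟨(p₀, f₀), h₀⟩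
  refine ⟨p, f, hpf, fun q hq g hg => ?_⟩
  by_contra hcon
  push Not at hcon
  refine hmin (q, g) ⟨fun x hx => (hg x hx).trans (hpf.lt x (st_anti hq hx)),
    fun q' hq' b hb => ?_⟩ ⟨hq, hg⟩
  obtain ⟨x, hx, hx'⟩ := hcon q' hq' b
  exact hx' (hb x hx)

theorem mk_Iio_lt {β : Ordinal.{u}} (hβ : β < κ.ord) : #(Iio β) < Cardinal.lift.{u + 1} κ := by
  rw [Cardinal.mk_Iio_ordinal, Cardinal.lift_lt]
  exact lt_ord.1 hβ

/-- A good function exceeds every `β < κ` on some extension. -/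
theorem Good.exists_gt (hκ : ℵ₀ ≤ κ) (hmin : ∀ μ < κ, ¬ ChooseWins μ) (h : WinsA S τ)
    {p : List (Set α)} {f : α → Ordinal.{u}} (hf : Good κ S τ p f) {β : Ordinal.{u}}
    (hβ : β < κ.ord) : ∃ q, p <:+ q ∧ ∀ x ∈ st S τ q, β < f x := by
  rcases st_cons (S := S) (τ := τ) {x | f x ≤ β} p with h1 | h1
  · exfalso
    obtain ⟨q, hq, b, hb⟩ := exists_const hmin h ({x | f x ≤ β} :: p) f (Iio (β + 1))
      (mk_Iio_lt ((isSuccLimit_ord hκ).add_one_lt hβ)) (fun x hx => by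
        rw [h1] at hx
        exact Order.lt_add_one_iff.2 (show f x ≤ β from hx.2))
    exact hf.nc q ((List.suffix_cons _ _).trans hq) b hb
  · refine ⟨{x | f x ≤ β} :: p, List.suffix_cons _ _, fun x hx => ?_⟩
    rw [h1] at hx
    exact not_le.1 hx.2

/-- Limit points `≤ a` of `D`. -/
def Lim (D : Set Ordinal.{u}) (a : Ordinal.{u}) : Set Ordinal.{u} :=
  {γ | γ ≤ a ∧ γ ≠ 0 ∧ ∀ η < γ, ∃ d ∈ D, η < d ∧ d < γ}

/-- Steering. Let `(p, f)` be a minimal good pair, let `D (f x)` be a cofinal subset of `f x` for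
every `x` in the set of the position `q`, and let `Z` be a stationary set of ordinals of cofinality
`ω`. Then some play from `q` leads to a point `x` such that `Z` contains a limit point
`γ ≤ f x` of `D (f x)`. -/
theorem steer (hκ : κ.IsRegular) (hmin : ∀ μ < κ, ¬ ChooseWins μ)
    (h : WinsA S τ) {p : List (Set α)} {f : α → Ordinal.{u}} (hf : Good κ S τ p f)
    (hnorm : ∀ q, p <:+ q → ∀ g : α → Ordinal.{u}, (∀ x ∈ st S τ q, g x < f x) →
        ∃ q', q <:+ q' ∧ ∃ b, ∀ x ∈ st S τ q', g x = b)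
    {q : List (Set α)} (hq : p <:+ q) (D : Ordinal.{u} → Set Ordinal.{u})
    (hD : ∀ x ∈ st S τ q, (∀ d ∈ D (f x), d < f x) ∧ ∀ η < f x, ∃ d ∈ D (f x), η < d)
    {Z : Set Ordinal.{u}} (hZ : Stat κ Z) (hZω : ∀ γ ∈ Z, γ.cof = ℵ₀) :
    ∃ x ∈ st S τ q, ∃ γ ∈ Z, γ ∈ Lim (D (f x)) (f x) := by
  classical
  have hsteer : ∀ (r : List (Set α)) (η : Ordinal.{u}), q <:+ r → η < κ.ord →
      ∃ (r' : List (Set α)) (ξ : Ordinal.{u}), r <:+ r' ∧ η < ξ ∧ ξ < κ.ord ∧
        ∀ x ∈ st S τ r', ξ ∈ D (f x) := by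
    intro r η hr hη
    obtain ⟨r1, hr1, hr2⟩ := (hf.mono (hq.trans hr)).exists_gt hκ.aleph0_le hmin h hη
    have hmem : ∀ x ∈ st S τ r1, sInf {d | d ∈ D (f x) ∧ η < d} ∈
        {d | d ∈ D (f x) ∧ η < d} := by
      intro x hx
      obtain ⟨d, hd1, hd2⟩ := (hD x (st_anti (hr.trans hr1) hx)).2 η (hr2 x hx)
      exact csInf_mem ⟨d, hd1, hd2⟩
    obtain ⟨r2, hr3, ξ, hξ⟩ := hnorm r1 (hq.trans (hr.trans hr1))
      (fun x => sInf {d | d ∈ D (f x) ∧ η < d}) fun x hx =>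
        (hD x (st_anti (hr.trans hr1) hx)).1 _ (hmem x hx).1
    refine ⟨r2, ξ, hr1.trans hr3, ?_, ?_, ?_⟩
    · obtain ⟨x, hx⟩ := h.nonempty r2
      rw [← hξ x hx]
      exact (hmem x (st_anti hr3 hx)).2
    · obtain ⟨x, hx⟩ := h.nonempty r2
      rw [← hξ x hx]
      have hx1 := st_anti hr3 hx
      exact ((hD x (st_anti (hr.trans hr1) hx1)).1 _ (hmem x hx1).1).trans
        (hf.lt x (st_anti (hq.trans (hr.trans hr1)) hx1))
    · intro x hx
      rw [← hξ x hx]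
      exact (hmem x (st_anti hr3 hx)).1
  choose! Φ Ξ hΦ1 hΦ2 hΦ3 hΦ4 using hsteer
  let pos : List Ordinal.{u} → List (Set α) := fun l => List.rec q (fun η _ r => Φ r η) l
  have hpos : ∀ η l, pos (η :: l) = Φ (pos l) η := fun _ _ => rfl
  let F : List Ordinal.{u} → Ordinal.{u} := fun l => match l with
    | [] => 0
    | η :: l => Ξ (pos l) η
  have hposq : ∀ l : List Ordinal.{u}, (∀ a ∈ l, a < κ.ord) → q <:+ pos l := by
    intro l
    induction l with
    | nil => intro _; exact List.suffix_rfl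
    | cons η l ih =>
      intro hl
      have h1 := ih fun a ha => hl a (List.mem_cons_of_mem _ ha)
      exact h1.trans (hΦ1 _ _ h1 (hl η List.mem_cons_self))
  obtain ⟨γ, hγZ, hγ3, hγ4⟩ := hZ F (by
    intro L hL
    match L with
    | [] => exact hκ.ord_pos
    | η :: l =>
      exact hΦ3 _ _ (hposq l fun a ha => hL a (List.mem_cons_of_mem _ ha))
        (hL η List.mem_cons_self))
  obtain ⟨c, -, hc2, hc3⟩ := exists_ladder (hZω γ hγZ)
  -- the play converging to `γ`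
  let L : ℕ → List Ordinal.{u} := fun k => Nat.rec [] (fun k l => c k :: l) k
  have hLs : ∀ k, L (k + 1) = c k :: L k := fun _ => rfl
  have hLγ : ∀ k, ∀ a ∈ L k, a < γ := by
    intro k
    induction k with
    | zero => intro a ha; simp [L] at ha
    | succ k ih =>
      intro a ha
      rw [hLs] at ha
      rcases List.mem_cons.1 ha with rfl | ha
      · exact hc2 k
      · exact ih a ha
  have hLκ : ∀ k, ∀ a ∈ L k, a < κ.ord := fun k a ha => (hLγ k a ha).trans hγ3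
  have hposs : ∀ k, q <:+ pos (L k) := fun k => hposq _ (hLκ k)
  obtain ⟨x, hx⟩ := h.chain (q := fun k => pos (L k)) fun k => by
    simp only [hLs, hpos]
    exact hΦ1 _ _ (hposs k) ((hc2 k).trans hγ3)
  have hξ : ∀ k, ∃ ξ ∈ D (f x), c k < ξ ∧ ξ < γ := by
    intro k
    refine ⟨F (L (k + 1)), ?_, ?_, hγ4 _ (hLγ (k + 1))⟩
    · have h1 := hx (k + 1)
      simp only [hLs, hpos] at h1
      exact hΦ4 _ _ (hposs k) ((hc2 k).trans hγ3) x h1
    · exact hΦ2 _ _ (hposs k) ((hc2 k).trans hγ3)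
  have hxq : x ∈ st S τ q := hx 0
  refine ⟨x, hxq, γ, hγZ, ?_, ?_, fun η hη => ?_⟩
  · by_contra hcon
    obtain ⟨k, hk⟩ := hc3 (f x) (not_le.1 hcon)
    obtain ⟨ξ, h1, h2, -⟩ := hξ k
    exact absurd ((hD x hxq).1 ξ h1) (not_lt.2 (hk.trans h2.le))
  · rintro rfl
    exact absurd (hc2 0) (by simp)
  · obtain ⟨k, hk⟩ := hc3 η hη
    obtain ⟨ξ, h1, h2, h3⟩ := hξ k
    exact ⟨ξ, h1, hk.trans_lt h2, h3⟩

/-- The key step: on no position can the values `f x` of a minimal good function have cofinal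
subsets `D (f x)` with a small number of limit points. -/
theorem no_small_lim (hκ : κ.IsRegular) (hω : ℵ₀ < κ) (hmin : ∀ μ < κ, ¬ ChooseWins μ)
    (h : WinsA S τ) {p : List (Set α)} {f : α → Ordinal.{u}} (hf : Good κ S τ p f)
    (hnorm : ∀ q, p <:+ q → ∀ g : α → Ordinal.{u}, (∀ x ∈ st S τ q, g x < f x) →
        ∃ q', q <:+ q' ∧ ∃ b, ∀ x ∈ st S τ q', g x = b)
    {q : List (Set α)} (hq : p <:+ q) (D : Ordinal.{u} → Set Ordinal.{u})
    (hD : ∀ x ∈ st S τ q, (∀ d ∈ D (f x), d < f x) ∧ ∀ η < f x, ∃ d ∈ D (f x), η < d)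
    (μ : Cardinal.{u}) (hμ : succ μ < κ)
    (hL : ∀ x ∈ st S τ q, #(Lim (D (f x)) (f x)) ≤ Cardinal.lift.{u + 1} μ) : False := by
  classical
  -- ladders
  have hlad : ∀ γ : Ordinal.{u}, ∃ c : ℕ → Ordinal.{u}, γ.cof = ℵ₀ →
      (∀ n, c n < γ) ∧ ∀ η < γ, ∃ n, η ≤ c n := by
    intro γ
    by_cases hγ : γ.cof = ℵ₀
    · obtain ⟨c, hc⟩ := exists_ladder hγ
      exact ⟨c, fun _ => hc.2⟩
    · exact ⟨fun _ => 0, fun h => absurd h hγ⟩
  choose c hc using hlad
  obtain ⟨n, hn⟩ := exists_stat hκ hω c hc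
  let H : Set Ordinal.{u} := {η | η < κ.ord ∧ Stat κ {γ | γ.cof = ℵ₀ ∧ c γ n = η}}
  have hH : Cardinal.lift.{u + 1} κ ≤ #H := by
    by_contra hcon
    rw [not_le, ← lift_cof_ord hκ] at hcon
    have h1 := sSup_add_one_lt_of_lt_cof hcon fun i hi => hi.1
    obtain ⟨η, h2, h3, h4⟩ := hn _ h1
    have hb : BddAbove ((· + 1) '' H) := by
      refine ⟨κ.ord, ?_⟩
      rintro _ ⟨i, hi, rfl⟩
      exact ((isSuccLimit_ord hκ.aleph0_le).add_one_lt hi.1).le
    have h5 : η + 1 ≤ sSup ((· + 1) '' H) := le_csSup hb ⟨η, ⟨h3, h4⟩, rfl⟩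
    exact absurd ((lt_add_one η).trans_le h5) (not_lt.2 h2)
  have hμ' : Cardinal.lift.{u + 1} (succ μ) ≤ #H := (Cardinal.lift_le.2 hμ.le).trans hH
  obtain ⟨H', hH'1, hH'2⟩ := le_mk_iff_exists_subset.1 hμ'
  -- the value avoided by the limit points
  have havoid : ∀ x : α, ∃ η : Ordinal.{u}, x ∈ st S τ q →
      η ∈ H' ∧ ∀ γ ∈ Lim (D (f x)) (f x), c γ n ≠ η := by
    intro x
    by_cases hx : x ∈ st S τ q
    · by_contra hcon
      push Not at hcon
      have hsub : H' ⊆ (fun γ => c γ n) '' Lim (D (f x)) (f x) := by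
        intro η hη
        obtain ⟨-, h2⟩ := hcon η
        obtain ⟨γ, h3, h4⟩ := h2 hη
        exact ⟨γ, h3, h4⟩
      have h1 := (mk_le_mk_of_subset hsub).trans (mk_image_le.trans (hL x hx))
      rw [hH'2, Cardinal.lift_le] at h1
      exact absurd h1 (not_le.2 (lt_succ μ))
    · exact ⟨0, fun h => absurd h hx⟩
  choose e he using havoid
  obtain ⟨q', hq', η', hη'⟩ := exists_const hmin h q e H'
    (by rw [hH'2]; exact Cardinal.lift_lt.2 hμ) fun x hx => (he x hx).1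
  have hstat : Stat κ {γ | γ.cof = ℵ₀ ∧ c γ n = η'} := by
    obtain ⟨x, hx⟩ := h.nonempty q'
    have h1 := hH'1 (he x (st_anti hq' hx)).1
    rw [hη' x hx] at h1
    exact h1.2
  obtain ⟨x, hx, γ, ⟨-, h1⟩, h2⟩ := steer hκ hmin h hf hnorm (hq.trans hq') D
    (fun x hx => hD x (st_anti hq' hx)) hstat (fun γ hγ => hγ.1)
  refine (he x (st_anti hq' hx)).2 γ h2 ?_
  rw [hη' x hx, h1]

/-- A cofinal set of size `μ` has at most `μ` limit points. -/
theorem mk_Lim_le {D : Set Ordinal.{u}} {a : Ordinal.{u}} (hD : ∀ η < a, ∃ d ∈ D, η < d)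
    {μ : Cardinal.{u}} (hμ : ℵ₀ ≤ μ) (hDμ : #D ≤ Cardinal.lift.{u + 1} μ) :
    #(Lim D a) ≤ Cardinal.lift.{u + 1} μ := by
  let φ : Ordinal.{u} → Ordinal.{u} := fun γ => sInf {d | d ∈ D ∧ γ ≤ d}
  have hmem : ∀ γ < a, φ γ ∈ {d | d ∈ D ∧ γ ≤ d} := by
    intro γ hγ
    obtain ⟨d, hd1, hd2⟩ := hD γ hγ
    exact csInf_mem ⟨d, hd1, hd2.le⟩
  have hlt : ∀ γ γ', γ < γ' → γ' ∈ Lim D a → γ' < a → φ γ < φ γ' := by
    intro γ γ' hγγ' hγ' hγ'a
    obtain ⟨d, hd1, hd2, hd3⟩ := hγ'.2.2 γ hγγ'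
    have h1 : φ γ ≤ d := csInf_le' ⟨hd1, hd2.le⟩
    exact h1.trans_lt (hd3.trans_le (hmem γ' hγ'a).2)
  have hinj : InjOn φ (Lim D a \ {a}) := by
    intro γ hγ γ' hγ' heq
    have h1 : γ < a := lt_of_le_of_ne hγ.1.1 hγ.2
    have h2 : γ' < a := lt_of_le_of_ne hγ'.1.1 hγ'.2
    rcases lt_trichotomy γ γ' with h | h | h
    · exact absurd heq (hlt _ _ h hγ'.1 h2).ne
    · exact h
    · exact absurd heq (hlt _ _ h hγ.1 h1).ne'
  have himg : φ '' (Lim D a \ {a}) ⊆ D := by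
    rintro _ ⟨γ, hγ, rfl⟩
    exact (hmem γ (lt_of_le_of_ne hγ.1.1 hγ.2)).1
  have h1 : #(Lim D a \ {a} : Set Ordinal.{u}) ≤ Cardinal.lift.{u + 1} μ := by
    rw [← mk_image_eq_of_injOn _ _ hinj]
    exact (mk_le_mk_of_subset himg).trans hDμ
  have h2 : Lim D a ⊆ insert a (Lim D a \ {a}) := by
    intro γ hγ
    by_cases h : γ = a
    · exact Or.inl h
    · exact Or.inr ⟨hγ, h⟩
  refine (mk_le_mk_of_subset h2).trans (mk_insert_le.trans ?_)
  refine (add_le_add h1 le_rfl).trans ?_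
  rw [Cardinal.add_one_eq]
  simpa using hμ

/-- A ladder of type `ω` has only one limit point. -/
theorem mk_Lim_range_le {c : ℕ → Ordinal.{u}} {a : Ordinal.{u}} (hc : StrictMono c)
    (hc2 : ∀ η < a, ∃ n, η ≤ c n) : #(Lim (range c) a) ≤ 1 := by
  have h : Lim (range c) a ⊆ {a} := by
    intro γ hγ
    by_contra hne
    have hlt : γ < a := lt_of_le_of_ne hγ.1 hne
    have hex := hc2 γ hlt
    classical
    obtain ⟨m, hm, hmin⟩ : ∃ m, γ ≤ c m ∧ ∀ k < m, c k < γ :=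
      ⟨Nat.find hex, Nat.find_spec hex, fun k hk => not_le.1 (Nat.find_min hex hk)⟩
    cases m with
    | zero =>
      obtain ⟨_, ⟨j, rfl⟩, -, h2⟩ := hγ.2.2 0 (pos_iff_ne_zero.2 hγ.2.1)
      exact absurd (h2.trans_le hm) (not_lt.2 (hc.monotone (Nat.zero_le j)))
    | succ k =>
      obtain ⟨_, ⟨j, rfl⟩, h1, h2⟩ := hγ.2.2 (c k) (hmin k (Nat.lt_succ_self k))
      have h3 := hc.lt_iff_lt.1 h1
      have h4 := hc.lt_iff_lt.1 (h2.trans_le hm)
      omega
  refine (mk_le_mk_of_subset h).trans ?_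
  simp

/-- The least cardinal at which Choose wins is regular. -/
theorem isRegular_of_least (hwin : ChooseWins κ) (hmin : ∀ μ < κ, ¬ ChooseWins μ) :
    κ.IsRegular := by
  have hω := hwin.aleph0_lt
  refine ⟨hω.le, ?_⟩
  by_contra hcof
  rw [not_le] at hcof
  obtain ⟨τ, hτ⟩ := exists_winsA hwin
  obtain ⟨D, hD1, hD2, hD3⟩ := exists_cofinal (isSuccLimit_ord hω.le)
  have hmem : ∀ x < κ.ord, sInf {d | d ∈ D ∧ x < d} ∈ {d | d ∈ D ∧ x < d} := by
    intro x hx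
    obtain ⟨d, hd1, hd2⟩ := hD2 x hx
    exact csInf_mem ⟨d, hd1, hd2⟩
  have hsub : ∀ q, st (Iio κ.ord) τ q ⊆ Iio κ.ord := fun q =>
    st_anti (S := Iio κ.ord) (τ := τ) (l := []) List.nil_suffix
  obtain ⟨q, -, b, hb⟩ := exists_const hmin hτ [] (fun x => sInf {d | d ∈ D ∧ x < d}) D
    (hD3.trans_lt (Cardinal.lift_lt.2 hcof)) (fun x hx => (hmem x (hsub _ hx)).1)
  have hb1 : ∀ x ∈ st (Iio κ.ord) τ q, x < b := fun x hx => by
    rw [← hb x hx]; exact (hmem x (hsub _ hx)).2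
  have hb2 : b < κ.ord := by
    obtain ⟨x, hx⟩ := hτ.nonempty q
    rw [← hb x hx]
    exact hD1 _ (hmem x (hsub _ hx)).1
  obtain ⟨q', -, c, hc⟩ := exists_const hmin hτ q id (Iio b) (mk_Iio_lt hb2) hb1
  exact hτ.not_subset_singleton q' c hc

/-- A cut on which the negative answer is impossible. -/
theorem exists_pos (C : Set α) (p : List (Set α))
    (hC : ∀ q, p <:+ q → (∀ x ∈ st S τ q, x ∉ C) → False) :
    ∃ q, p <:+ q ∧ ∀ x ∈ st S τ q, x ∈ C := by
  rcases st_cons (S := S) (τ := τ) C p with h1 | h1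
  · exact ⟨C :: p, List.suffix_cons _ _, fun x hx => by rw [h1] at hx; exact hx.2⟩
  · exact (hC (C :: p) (List.suffix_cons _ _) fun x hx => by rw [h1] at hx; exact hx.2).elim

/-- Closure points of a function on finite sequences form a club. -/
theorem IsStationaryIn.stat (hκ : κ.IsRegular) (hω : ℵ₀ < κ) {Z : Set Ordinal.{u}}
    (hZ : IsStationaryIn Z κ.ord) : Stat κ Z := by
  intro F hF
  have hclub : IsClubIn {γ | γ < κ.ord ∧ ∀ l, (∀ a ∈ l, a < γ) → F l < γ} κ.ord := by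
    refine ⟨fun c hc => hc.1, fun β hβ => ?_, fun γ hγ hγ0 hlim => ⟨hγ, fun l hl => ?_⟩⟩
    · obtain ⟨γ, h1, h2, -, h3⟩ := exists_closed hκ hω F hF β hβ
      exact ⟨γ, ⟨h2, h3⟩, h1⟩
    · have : ∃ β < γ, ∀ a ∈ l, a ≤ β := by
        induction l with
        | nil => exact ⟨0, pos_iff_ne_zero.2 hγ0, by simp⟩
        | cons a l ih =>
          obtain ⟨β, h1, h2⟩ := ih fun b hb => hl b (List.mem_cons_of_mem _ hb)
          refine ⟨max a β, max_lt (hl a List.mem_cons_self) h1, fun b hb => ?_⟩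
          rcases List.mem_cons.1 hb with rfl | hb
          · exact le_max_left _ _
          · exact (h2 b hb).trans (le_max_right _ _)
      obtain ⟨β, h1, h2⟩ := this
      obtain ⟨c, hc1, hc2, hc3⟩ := hlim β h1
      exact (hc1.2 l fun a ha => (h2 a ha).trans_lt hc2).trans hc3
  obtain ⟨γ, h1, h2⟩ := hZ _ hclub
  exact ⟨γ, h1, h2.1, h2.2⟩

/-- The core theorem. Let `κ` be the least cardinal at which Choose wins, let `C` be a club of `κ`
and let `Z i`, `i < κ`, be stationary subsets of `κ` consisting of ordinals of cofinality `ω`. Then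
there is `a ∈ C` of uncountable cofinality such that `Z i` is stationary in `a` for every `i < a`,
and such that either `a` is a regular cardinal or `κ` is the successor of the regular cardinal
`cof a`; if `κ` is a strong limit, then so is `a`. -/
theorem core (hwin : ChooseWins κ) (hmin : ∀ μ < κ, ¬ ChooseWins μ)
    {C : Set Ordinal.{u}} (hC : IsClubIn C κ.ord) {Z : Ordinal.{u} → Set Ordinal.{u}}
    (hZ : ∀ i < κ.ord, IsStationaryIn (Z i) κ.ord ∧ ∀ γ ∈ Z i, γ.cof = ℵ₀) :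
    ∃ a ∈ C, ω < a ∧ a < κ.ord ∧ IsSuccLimit a ∧ a.cof ≠ ℵ₀ ∧
      (∀ i < a, IsStationaryIn (Z i) a) ∧
      (a.cof.ord = a ∨ κ = succ a.cof) ∧
      (κ.IsStrongLimit → ∀ ν < a, ((2 : Cardinal.{u}) ^ ν.card).ord < a) := by
  have hω := hwin.aleph0_lt
  have hκ := isRegular_of_least hwin hmin
  have hωκ : ω < κ.ord := by rw [← ord_aleph0]; exact ord_lt_ord.2 hω
  obtain ⟨τ, hτ⟩ := exists_winsA hwin
  have hgood : Good κ (Iio κ.ord) τ [] (id : Ordinal.{u} → Ordinal.{u}) :=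
    ⟨fun x hx => hx, fun q _ b hb => hτ.not_subset_singleton q b hb⟩
  obtain ⟨p, f, hf, hnorm⟩ := exists_min hτ hgood
  -- `f x > ω`
  obtain ⟨p1, hp1, hf1⟩ := hf.exists_gt hω.le hmin hτ hωκ
  -- `f x ∈ C`
  obtain ⟨p2, hp2, hf2⟩ : ∃ q, p1 <:+ q ∧ ∀ x ∈ st (Iio κ.ord) τ q, f x ∈ C := by
    refine exists_pos {x | f x ∈ C} p1 fun q hq hneg => ?_
    have hpq : p <:+ q := hp1.trans hq
    -- the supremum of `C` below `f x`
    have hex : ∀ x ∈ st (Iio κ.ord) τ q, ∃ β < f x, ∀ c ∈ C, β < c → f x ≤ c := by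
      intro x hx
      by_contra hcon
      push Not at hcon
      refine hneg x hx (hC.closed (f x) (hf.lt x (st_anti hpq hx)) ?_ hcon)
      intro h0
      have := hf1 x (st_anti hq hx)
      rw [h0] at this
      exact absurd this (by simp)
    let g : Ordinal.{u} → Ordinal.{u} := fun x => sInf {β | β < f x ∧ ∀ c ∈ C, β < c → f x ≤ c}
    have hg : ∀ x ∈ st (Iio κ.ord) τ q, g x < f x ∧ ∀ c ∈ C, g x < c → f x ≤ c := by
      intro x hx
      obtain ⟨β, h1, h2⟩ := hex x hx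
      exact csInf_mem (s := {β | β < f x ∧ ∀ c ∈ C, β < c → f x ≤ c}) ⟨β, h1, h2⟩
    obtain ⟨q', hq', b, hb⟩ := hnorm q hpq g fun x hx => (hg x hx).1
    have hbκ : b < κ.ord := by
      obtain ⟨x, hx⟩ := hτ.nonempty q'
      rw [← hb x hx]
      exact (hg x (st_anti hq' hx)).1.trans (hf.lt x (st_anti (hpq.trans hq') hx))
    obtain ⟨c, hc1, hc2⟩ := hC.unbounded b hbκ
    obtain ⟨q'', hq'', hgt⟩ := (hf.mono (hpq.trans hq')).exists_gt hω.le hmin hτ (hC.subset c hc1)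
    obtain ⟨x, hx⟩ := hτ.nonempty q''
    have h1 := hb x (st_anti hq'' hx)
    have h2 := (hg x (st_anti (hq'.trans hq'') hx)).2 c hc1 (by rw [h1]; exact hc2)
    exact absurd (hgt x hx) (not_lt.2 h2)
  -- `f x` is a limit ordinal
  obtain ⟨p3, hp3, hf3⟩ : ∃ q, p2 <:+ q ∧ ∀ x ∈ st (Iio κ.ord) τ q, IsSuccLimit (f x) := by
    refine exists_pos {x | IsSuccLimit (f x)} p2 fun q hq hneg => ?_
    have hpq : p <:+ q := hp1.trans (hp2.trans hq)
    have hex : ∀ x : Ordinal.{u}, ∃ o : Ordinal.{u}, x ∈ st (Iio κ.ord) τ q → f x = o + 1 := by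
      intro x
      by_cases hx : x ∈ st (Iio κ.ord) τ q
      · rcases zero_or_succ_or_isSuccLimit (f x) with h0 | ⟨o, ho⟩ | hlim
        · exfalso
          have := hf1 x (st_anti (hp2.trans hq) hx)
          rw [h0] at this
          exact absurd this (by simp)
        · exact ⟨o, fun _ => ho.symm⟩
        · exact absurd hlim (hneg x hx)
      · exact ⟨0, fun h => absurd h hx⟩
    choose g hg using hex
    obtain ⟨q', hq', b, hb⟩ := hnorm q hpq g fun x hx => by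
      rw [hg x hx]; exact lt_add_one _
    refine hf.nc q' (hpq.trans hq') (b + 1) fun x hx => ?_
    rw [hg x (st_anti hq' hx), hb x hx]
  have hp03 : p <:+ p3 := hp1.trans (hp2.trans hp3)
  -- `f x` has uncountable cofinality
  obtain ⟨p4, hp4, hf4⟩ : ∃ q, p3 <:+ q ∧ ∀ x ∈ st (Iio κ.ord) τ q, (f x).cof ≠ ℵ₀ := by
    refine exists_pos {x | (f x).cof ≠ ℵ₀} p3 fun q hq hneg => ?_
    have hpq : p <:+ q := hp03.trans hq
    have hneg' : ∀ x ∈ st (Iio κ.ord) τ q, (f x).cof = ℵ₀ := fun x hx =>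
      not_not.1 (hneg x hx)
    have hlad : ∀ a : Ordinal.{u}, ∃ D : Set Ordinal.{u}, a.cof = ℵ₀ →
        (∀ d ∈ D, d < a) ∧ (IsSuccLimit a → ∀ η < a, ∃ d ∈ D, η < d) ∧ #(Lim D a) ≤ 1 := by
      intro a
      by_cases ha : a.cof = ℵ₀
      · obtain ⟨c, hc1, hc2, hc3⟩ := exists_ladder ha
        refine ⟨range c, fun _ => ⟨?_, ?_, mk_Lim_range_le hc1 hc3⟩⟩
        · rintro _ ⟨n, rfl⟩; exact hc2 n
        · intro hlim η hη
          obtain ⟨n, hn⟩ := hc3 (η + 1) (hlim.add_one_lt hη)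
          exact ⟨c n, ⟨n, rfl⟩, (lt_add_one η).trans_le hn⟩
      · exact ⟨∅, fun h => absurd h ha⟩
    choose D hD using hlad
    refine no_small_lim hκ hω hmin hτ hf hnorm hpq D (fun x hx => ?_) 1 ?_
      (fun x hx => ?_)
    · have h1 := hD (f x) (hneg' x hx)
      exact ⟨h1.1, h1.2.1 (hf3 x (st_anti hq hx))⟩
    · rw [← Nat.cast_one, succ_natCast, ← Nat.cast_add_one]
      exact hκ.nat_lt _
    · rw [Cardinal.lift_one]
      exact (hD (f x) (hneg' x hx)).2.2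
  have hp04 : p <:+ p4 := hp03.trans hp4
  -- `f x` is regular, or `κ` is the successor of its cofinality
  obtain ⟨p5, hp5, hf5⟩ : ∃ q, p4 <:+ q ∧ ∀ x ∈ st (Iio κ.ord) τ q,
      ((f x).cof.ord = f x ∨ κ = succ (f x).cof) := by
    refine exists_pos {x | (f x).cof.ord = f x ∨ κ = succ (f x).cof} p4 fun q hq hneg => ?_
    have hneg1 : ∀ x ∈ st (Iio κ.ord) τ q, (f x).cof.ord ≠ f x := fun x hx h1 =>
      hneg x hx (Or.inl h1)
    have hneg2 : ∀ x ∈ st (Iio κ.ord) τ q, κ ≠ succ (f x).cof := fun x hx h1 =>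
      hneg x hx (Or.inr h1)
    have hpq : p <:+ q := hp04.trans hq
    obtain ⟨q', hq', b, hb⟩ := hnorm q hpq (fun x => (f x).cof.ord) fun x hx =>
      lt_of_le_of_ne (ord_cof_le _) (hneg1 x hx)
    obtain ⟨x₀, hx₀⟩ := hτ.nonempty q'
    set δ := (f x₀).cof with hδ
    have hδ' : ∀ x ∈ st (Iio κ.ord) τ q', (f x).cof = δ := fun x hx =>
      ord_injective ((hb x hx).trans (hb x₀ hx₀).symm)
    have hlim : ∀ x ∈ st (Iio κ.ord) τ q', IsSuccLimit (f x) := fun x hx =>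
      hf3 x (st_anti (hp4.trans (hq.trans hq')) hx)
    have hδr : δ.IsRegular := isRegular_cof (hlim x₀ hx₀)
    have hδκ : δ < κ := by
      rw [← ord_lt_ord]
      exact (ord_cof_le _).trans_lt (hf.lt x₀ (st_anti (hpq.trans hq') hx₀))
    have hlt : succ δ < κ :=
      lt_of_le_of_ne (succ_le_of_lt hδκ) fun h => hneg2 x₀ (st_anti hq' hx₀) h.symm
    have hlad : ∀ a : Ordinal.{u}, ∃ D : Set Ordinal.{u}, IsSuccLimit a →
        (∀ d ∈ D, d < a) ∧ (∀ η < a, ∃ d ∈ D, η < d) ∧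
          #D ≤ Cardinal.lift.{u + 1} a.cof := by
      intro a
      by_cases ha : IsSuccLimit a
      · obtain ⟨D, hD⟩ := exists_cofinal ha
        exact ⟨D, fun _ => hD⟩
      · exact ⟨∅, fun h => absurd h ha⟩
    choose D hD using hlad
    refine no_small_lim hκ hω hmin hτ hf hnorm (hpq.trans hq') D (fun x hx => ?_) δ hlt
      (fun x hx => ?_)
    · have h1 := hD (f x) (hlim x hx)
      exact ⟨h1.1, h1.2.1⟩
    · have h1 := hD (f x) (hlim x hx)
      exact mk_Lim_le h1.2.1 hδr.aleph0_le (by rw [← hδ' x hx]; exact h1.2.2)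
  have hp05 : p <:+ p5 := hp04.trans hp5
  -- strong limit
  obtain ⟨p6, hp6, hf6⟩ : ∃ q, p5 <:+ q ∧ ∀ x ∈ st (Iio κ.ord) τ q,
      (κ.IsStrongLimit → ∀ ν < f x, ((2 : Cardinal.{u}) ^ ν.card).ord < f x) := by
    by_cases hsl : κ.IsStrongLimit
    · refine exists_pos {x | κ.IsStrongLimit →
        ∀ ν < f x, ((2 : Cardinal.{u}) ^ ν.card).ord < f x} p5 fun q hq hneg => ?_
      have hpq : p <:+ q := hp05.trans hq
      let g : Ordinal.{u} → Ordinal.{u} := fun x =>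
        sInf {ν | ν < f x ∧ f x ≤ ((2 : Cardinal.{u}) ^ ν.card).ord}
      have hg : ∀ x ∈ st (Iio κ.ord) τ q,
          g x < f x ∧ f x ≤ ((2 : Cardinal.{u}) ^ (g x).card).ord := by
        intro x hx
        have h1 := hneg x hx
        have h2 : ∃ ν, ν < f x ∧ f x ≤ ((2 : Cardinal.{u}) ^ ν.card).ord := by
          by_contra hcon
          push Not at hcon
          exact h1 fun _ => hcon
        exact csInf_mem (s := {ν | ν < f x ∧ f x ≤ ((2 : Cardinal.{u}) ^ ν.card).ord}) h2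
      obtain ⟨q', hq', b, hb⟩ := hnorm q hpq g fun x hx => (hg x hx).1
      have hbκ : b < κ.ord := by
        obtain ⟨x, hx⟩ := hτ.nonempty q'
        rw [← hb x hx]
        exact (hg x (st_anti hq' hx)).1.trans (hf.lt x (st_anti (hpq.trans hq') hx))
      have hb2 : ((2 : Cardinal.{u}) ^ b.card).ord < κ.ord :=
        ord_lt_ord.2 (hsl.isStrongPrelimit (lt_ord.1 hbκ))
      obtain ⟨q'', hq'', hgt⟩ := (hf.mono (hpq.trans hq')).exists_gt hω.le hmin hτ hb2
      obtain ⟨x, hx⟩ := hτ.nonempty q''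
      have h1 := (hg x (st_anti (hq'.trans hq'') hx)).2
      rw [hb x (st_anti hq'' hx)] at h1
      exact absurd (hgt x hx) (not_lt.2 h1)
    · exact ⟨p5, List.suffix_rfl, fun x _ h => absurd h hsl⟩
  have hp06 : p <:+ p6 := hp05.trans hp6
  -- reflection
  obtain ⟨p7, hp7, hf7⟩ : ∃ q, p6 <:+ q ∧ ∀ x ∈ st (Iio κ.ord) τ q,
      (∀ i < f x, IsStationaryIn (Z i) (f x)) := by
    refine exists_pos {x | ∀ i < f x, IsStationaryIn (Z i) (f x)} p6 fun q hq hneg => ?_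
    have hpq : p <:+ q := hp06.trans hq
    let g : Ordinal.{u} → Ordinal.{u} := fun x =>
      sInf {i | i < f x ∧ ¬ IsStationaryIn (Z i) (f x)}
    have hg : ∀ x ∈ st (Iio κ.ord) τ q, g x < f x ∧ ¬ IsStationaryIn (Z (g x)) (f x) := by
      intro x hx
      have h1 := hneg x hx
      have h2 : ∃ i, i < f x ∧ ¬ IsStationaryIn (Z i) (f x) := by
        by_contra hcon
        push Not at hcon
        exact h1 hcon
      exact csInf_mem (s := {i | i < f x ∧ ¬ IsStationaryIn (Z i) (f x)}) h2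
    obtain ⟨q', hq', b, hb⟩ := hnorm q hpq g fun x hx => (hg x hx).1
    have hbκ : b < κ.ord := by
      obtain ⟨x, hx⟩ := hτ.nonempty q'
      rw [← hb x hx]
      exact (hg x (st_anti hq' hx)).1.trans (hf.lt x (st_anti (hpq.trans hq') hx))
    have hE : ∀ a : Ordinal.{u}, ∃ E : Set Ordinal.{u}, ¬ IsStationaryIn (Z b) a →
        IsClubIn E a ∧ ∀ γ ∈ Z b, γ ∉ E := by
      intro a
      by_cases ha : IsStationaryIn (Z b) a
      · exact ⟨∅, fun h => absurd ha h⟩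
      · have h1 := ha
        unfold IsStationaryIn at h1
        push Not at h1
        obtain ⟨E, h2, h3⟩ := h1
        exact ⟨E, fun _ => ⟨h2, h3⟩⟩
    choose E hE using hE
    have hns : ∀ x ∈ st (Iio κ.ord) τ q', ¬ IsStationaryIn (Z b) (f x) := by
      intro x hx
      have h1 := (hg x (st_anti hq' hx)).2
      rw [hb x hx] at h1
      exact h1
    obtain ⟨x, hx, γ, hγ1, hγ2⟩ := steer hκ hmin hτ hf hnorm (hpq.trans hq') E
      (fun x hx => ⟨(hE (f x) (hns x hx)).1.subset, (hE (f x) (hns x hx)).1.unbounded⟩)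
      ((hZ b hbκ).1.stat hκ hω) (hZ b hbκ).2
    have h1 := hE (f x) (hns x hx)
    have hne : γ ≠ f x := by
      rintro rfl
      exact hf4 x (st_anti (hp5.trans (hp6.trans (hq.trans hq'))) hx) ((hZ b hbκ).2 _ hγ1)
    exact h1.2 γ hγ1 (h1.1.closed γ (lt_of_le_of_ne hγ2.1 hne) hγ2.2.1 hγ2.2.2)
  obtain ⟨x, hx⟩ := hτ.nonempty p7
  have hx6 := st_anti hp7 hx
  have hx5 := st_anti hp6 hx6
  have hx4 := st_anti hp5 hx5
  have hx3 := st_anti hp4 hx4
  have hx2 := st_anti hp3 hx3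
  have hx1 := st_anti hp2 hx2
  exact ⟨f x, hf2 x hx2, hf1 x hx1, hf.lt x (st_anti hp1 hx1), hf3 x hx3, hf4 x hx4, hf7 x hx,
    hf5 x hx5, hf6 x hx6⟩

end MP21de40
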